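import Pool.Agent.H34.FQ.Targets

/-!
Row DI1 of hfq_modules (MP_63b6b1_nt): the bound for dependent vectors.
-/

set_option autoImplicit false

open Finset Pool.Agent.H32.RQ Pool.Agent.H34.FQ

namespace Pool.Agent.H48.HFQ

/-- a symmetric matrix whose rows are proportional to a primitive vector -/
theorem struc1 {s : ℕ} {x : Fin s → ℤ} (hx : Prm x) (m : Fin s → Fin s → ℤ)
    (hm : ∀ i l, m i l = m l i) (h1 : ∀ d i j, x i * m j d = x j * m i d) :
    ∃ α : ℤ, ∀ i l, m i l = α * (x i * x l) := by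
  obtain ⟨a, ha⟩ := hx
  set w : Fin s → ℤ := fun d => ∑ i, a i * m i d with hw
  have h2 : ∀ j d, m j d = x j * w d := by
    intro j d
    calc m j d = (∑ i, a i * x i) * m j d := by rw [ha, one_mul]
      _ = ∑ i, a i * (x i * m j d) := by
          rw [Finset.sum_mul]
          exact Finset.sum_congr rfl fun i _ => by ring
      _ = ∑ i, a i * (x j * m i d) := Finset.sum_congr rfl fun i _ => by rw [h1 d i j]
      _ = x j * w d := by
          rw [hw, Finset.mul_sum]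
          exact Finset.sum_congr rfl fun i _ => by ring
  have h3 : ∀ d, w d = x d * ∑ i, a i * w i := by
    intro d
    calc w d = ∑ i, a i * m d i := by
          rw [hw]
          exact Finset.sum_congr rfl fun i _ => by rw [hm i d]
      _ = ∑ i, a i * (x d * w i) := Finset.sum_congr rfl fun i _ => by rw [h2 d i]
      _ = x d * ∑ i, a i * w i := by
          rw [Finset.mul_sum]
          exact Finset.sum_congr rfl fun i _ => by ring
  refine ⟨∑ i, a i * w i, fun i l => ?_⟩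
  rw [h2 i l, h3 l]
  ring

/-- the frequencies -/
theorem freq1 {s B K D A J Q : ℕ} [NeZero Q] {x : Fin s → ℤ} (hB : 1 ≤ B) (hA : 1 ≤ A)
    (hBA : B ≤ A) (hJ : 1 ≤ J) (hQ : Q = 2 * A * J) (hx : Gv B K D x) (t : ZMod Q)
    (ht : ∀ p : Mon s, |(t * ((nu x p : ℤ) : ZMod Q)).valMinAbs| < (J : ℤ)) :
    ∃ n : ℤ, t = (n : ZMod Q) ∧ |n| * (B : ℤ) ^ 2 ≤ (K : ℤ) ^ 2 * J := by
  set t₀ : ℤ := (t.val : ℤ) with ht₀
  have htt : (t₀ : ZMod Q) = t := by
    rw [ht₀]
    push_cast
    exact ZMod.natCast_zmod_val t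
  set e : Fin s → Fin s → ℤ := fun i l => (t * ((x i * x l : ℤ) : ZMod Q)).valMinAbs with he
  have hesym : ∀ i l, e i l = e l i := by
    intro i l
    simp only [he]
    rw [mul_comm (x i) (x l)]
  have heb : ∀ i l, |e i l| < (J : ℤ) := by
    intro i l
    rcases le_total i l with h | h
    · exact ht ⟨(i, l), h⟩
    · rw [hesym]
      exact ht ⟨(l, i), h⟩
  have hex : ∀ i l, ∃ u : ℤ, t₀ * (x i * x l) = Q * u + e i l := by
    intro i l
    have h1 : (((t₀ * (x i * x l) - e i l : ℤ)) : ZMod Q) = 0 := by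
      push_cast
      rw [htt]
      simp only [he]
      rw [ZMod.coe_valMinAbs]
      push_cast
      ring
    rw [ZMod.intCast_zmod_eq_zero_iff_dvd] at h1
    obtain ⟨u, hu⟩ := h1
    exact ⟨u, by linarith⟩
  have hQ0 : (Q : ℤ) ≠ 0 := by exact_mod_cast NeZero.ne Q
  choose m hm using hex
  have hmsym : ∀ i l, m i l = m l i := by
    intro i l
    have h1 := hm i l
    have h2 := hm l i
    rw [hesym l i] at h2
    have h3 : (Q : ℤ) * m i l = Q * m l i := by
      have : t₀ * (x i * x l) = t₀ * (x l * x i) := by ring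
      linarith
    exact mul_left_cancel₀ hQ0 h3
  have hB' : (1 : ℤ) ≤ B := by exact_mod_cast hB
  have hJ' : (1 : ℤ) ≤ J := by exact_mod_cast hJ
  have hBA' : (B : ℤ) ≤ A := by exact_mod_cast hBA
  have hrow : ∀ d i j, x i * m j d = x j * m i d := by
    intro d i j
    have h1 : (Q : ℤ) * (x i * m j d - x j * m i d) = x j * e i d - x i * e j d := by
      have e1 := hm i d
      have e2 := hm j d
      linear_combination x j * e1 - x i * e2
    have h2 : |x j * e i d - x i * e j d| ≤ 2 * (B * (J - 1)) := by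
      refine (abs_sub _ _).trans ?_
      rw [abs_mul, abs_mul]
      have e1 : |e i d| ≤ (J : ℤ) - 1 := by have := heb i d; omega
      have e2 : |e j d| ≤ (J : ℤ) - 1 := by have := heb j d; omega
      have e3 : |x j| * |e i d| ≤ B * (J - 1) :=
        mul_le_mul (hx.bd j) e1 (abs_nonneg _) (by linarith)
      have e4 : |x i| * |e j d| ≤ B * (J - 1) :=
        mul_le_mul (hx.bd i) e2 (abs_nonneg _) (by linarith)
      linarith
    by_contra hne
    have h3 : 1 ≤ |x i * m j d - x j * m i d| := Int.one_le_abs (sub_ne_zero.2 hne)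
    have hQ1 : (Q : ℤ) = 2 * A * J := by exact_mod_cast hQ
    have h4 : |(Q : ℤ) * (x i * m j d - x j * m i d)| =
        (Q : ℤ) * |x i * m j d - x j * m i d| := by
      rw [abs_mul, abs_of_nonneg (by positivity)]
    rw [← h1, h4, hQ1] at h2
    have h5 : (2 : ℤ) * A * J * 1 ≤ 2 * A * J * |x i * m j d - x j * m i d| := by
      refine mul_le_mul_of_nonneg_left h3 (by positivity)
    have h6 : (B : ℤ) * J ≤ A * J := mul_le_mul_of_nonneg_right hBA' (by linarith)
    nlinarith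
  obtain ⟨α, hα⟩ := struc1 hx.prm m hmsym hrow
  obtain ⟨i, hi⟩ := hx.big
  refine ⟨t₀ - Q * α, ?_, ?_⟩
  · push_cast
    rw [htt]
    simp
  have h1 : (t₀ - Q * α) * (x i * x i) = e i i := by
    have := hm i i
    rw [hα] at this
    linarith
  have h2 : |t₀ - Q * α| * (x i * x i) ≤ J := by
    have h3 : |t₀ - Q * α| * (x i * x i) = |e i i| := by
      rw [← h1, abs_mul, abs_of_nonneg (mul_self_nonneg (x i))]
    rw [h3]
    exact (heb i i).le
  have h3 : (B : ℤ) ^ 2 ≤ (K : ℤ) ^ 2 * (x i * x i) := by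
    have h6 : x i * x i = |x i| * |x i| := (abs_mul_abs_self (x i)).symm
    rw [h6]
    calc (B : ℤ) ^ 2 ≤ (K * |x i|) ^ 2 := pow_le_pow_left₀ (by positivity) hi 2
      _ = _ := by ring
  calc |t₀ - Q * α| * (B : ℤ) ^ 2 ≤ |t₀ - Q * α| * ((K : ℤ) ^ 2 * (x i * x i)) := by gcongr
    _ = (K : ℤ) ^ 2 * (|t₀ - Q * α| * (x i * x i)) := by ring
    _ ≤ (K : ℤ) ^ 2 * J := by gcongr

open Classical in
/-- the number of the frequencies -/
theorem cnt1 {s B K D A J Q : ℕ} [NeZero Q] {x : Fin s → ℤ} (hB : 1 ≤ B) (hA : 1 ≤ A)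
    (hBA : B ≤ A) (hBJ : B ^ 2 ≤ J) (hQ : Q = 2 * A * J) (hx : Gv B K D x) :
    ((Finset.univ.filter fun t : ZMod Q => ∀ p : Mon s,
      |(t * ((nu x p : ℤ) : ZMod Q)).valMinAbs| < (J : ℤ)).card) * B ^ 2 ≤
      (2 * K ^ 2 + 1) * J := by
  have hb8 : 1 ≤ B ^ 2 := Nat.one_le_pow _ _ hB
  have hJ : 1 ≤ J := hb8.trans hBJ
  set n : ℕ := K ^ 2 * J / B ^ 2 with hn
  have h1 : (Finset.univ.filter fun t : ZMod Q => ∀ p : Mon s,
      |(t * ((nu x p : ℤ) : ZMod Q)).valMinAbs| < (J : ℤ)) ⊆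
      (Finset.Icc (-(n : ℤ)) n).image (fun a : ℤ => (a : ZMod Q)) := by
    intro t ht
    rw [mem_filter] at ht
    obtain ⟨a, ha1, ha2⟩ := freq1 hB hA hBA hJ hQ hx t ht.2
    rw [mem_image]
    refine ⟨a, ?_, ha1.symm⟩
    have h2 : a.natAbs ≤ n := by
      rw [hn, Nat.le_div_iff_mul_le (by omega)]
      have : ((a.natAbs * B ^ 2 : ℕ) : ℤ) ≤ ((K ^ 2 * J : ℕ) : ℤ) := by
        push_cast
        exact ha2
      exact_mod_cast this
    rw [mem_Icc]
    omega
  have h2 : (Finset.univ.filter fun t : ZMod Q => ∀ p : Mon s,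
      |(t * ((nu x p : ℤ) : ZMod Q)).valMinAbs| < (J : ℤ)).card ≤ 2 * n + 1 := by
    refine (card_le_card h1).trans (card_image_le.trans ?_)
    rw [Int.card_Icc]
    omega
  have h3 : n * B ^ 2 ≤ K ^ 2 * J := Nat.div_mul_le_self _ _
  calc _ ≤ (2 * n + 1) * B ^ 2 := Nat.mul_le_mul_right _ h2
    _ = 2 * (n * B ^ 2) + B ^ 2 := by ring
    _ ≤ 2 * (K ^ 2 * J) + J := by omega
    _ = (2 * K ^ 2 + 1) * J := by ring

theorem pf_DI1 (_hCL2 : T_CL2) (hFJB : T_FJB) : T_DI1 := by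
  classical
  intro s B K D A J Q _ x y hA hBA hQ hBJ hx hxy
  rcases Nat.eq_zero_or_pos B with hB0 | hB
  · rw [hB0]
    have : (0 : ℝ) ≤ 2 * (K : ℝ) ^ 2 + 1 := by positivity
    simpa using this
  have hb8 : 1 ≤ B ^ 2 := Nat.one_le_pow _ _ hB
  have hJ : 1 ≤ J := hb8.trans hBJ
  have hnu : ∀ p : Mon s, nu y p = nu x p := by
    intro p
    rcases hxy with h | h
    · rw [h]
    · rw [h]
      unfold nu
      simp
  obtain ⟨-, htri, -⟩ := hFJB Q J hJ
  set g : ZMod Q → ℝ := fun t => ∏ p : Mon s, tri Q J (t * ((nu x p : ℤ) : ZMod Q)) with hg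
  have hrr : ∀ j k, rr Q J x y j k = g (j + k) := by
    intro j k
    unfold rr
    rw [hg]
    refine Finset.prod_congr rfl fun p _ => ?_
    rw [hnu p, add_mul]
  have hsum : ∑ j : ZMod Q, ∑ k : ZMod Q, rr Q J x y j k = Q * ∑ t, g t := by
    have h1 : ∀ j : ZMod Q, ∑ k : ZMod Q, rr Q J x y j k = ∑ t, g t := by
      intro j
      rw [← Equiv.sum_comp (Equiv.addLeft j) g]
      exact Finset.sum_congr rfl fun k _ => hrr j k
    rw [Finset.sum_congr rfl fun j _ => h1 j, Finset.sum_const, nsmul_eq_mul, Finset.card_univ,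
      ZMod.card]
  have hgle : ∑ t, g t ≤ ((Finset.univ.filter fun t : ZMod Q => ∀ p : Mon s,
      |(t * ((nu x p : ℤ) : ZMod Q)).valMinAbs| < (J : ℤ)).card : ℝ) := by
    have h1 : ∀ t, g t ≤ if (∀ p : Mon s,
        |(t * ((nu x p : ℤ) : ZMod Q)).valMinAbs| < (J : ℤ)) then 1 else 0 := by
      intro t
      split_ifs with h
      · exact Finset.prod_le_one (fun p _ => (htri _).1) (fun p _ => (htri _).2)
      · push Not at h
        obtain ⟨p, hp⟩ := h
        refine le_of_eq (Finset.prod_eq_zero (mem_univ p) ?_)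
        unfold tri
        refine max_eq_left ?_
        have hJ0 : (0 : ℝ) < J := by exact_mod_cast hJ
        rw [sub_nonpos, le_div_iff₀ hJ0, one_mul]
        exact_mod_cast hp
    refine (Finset.sum_le_sum fun t _ => h1 t).trans ?_
    rw [Finset.sum_boole]
  have hcnt := cnt1 hB hA hBA hBJ hQ hx
  have hcnt' : ((Finset.univ.filter fun t : ZMod Q => ∀ p : Mon s,
      |(t * ((nu x p : ℤ) : ZMod Q)).valMinAbs| < (J : ℤ)).card : ℝ) * (B : ℝ) ^ 2 ≤
      (2 * (K : ℝ) ^ 2 + 1) * J := by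
    exact_mod_cast hcnt
  have hQ0 : (0 : ℝ) < Q := by exact_mod_cast Nat.pos_of_ne_zero (NeZero.ne Q)
  have hQ' : (Q : ℝ) = 2 * A * J := by exact_mod_cast hQ
  have hA0 : (0 : ℝ) < A := by
    have : 0 < A := by omega
    exact_mod_cast this
  unfold pp
  rw [hsum, div_mul_eq_mul_div, div_le_iff₀ (by positivity)]
  calc (Q : ℝ) * (∑ t, g t) * (2 * A * (B : ℝ) ^ 2) =
      (Q : ℝ) * (2 * A) * ((∑ t, g t) * (B : ℝ) ^ 2) := by ring
    _ ≤ (Q : ℝ) * (2 * A) * ((2 * (K : ℝ) ^ 2 + 1) * J) := by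
        refine mul_le_mul_of_nonneg_left ?_ (by positivity)
        refine le_trans ?_ hcnt'
        gcongr
    _ = (2 * (K : ℝ) ^ 2 + 1) * (Q : ℝ) ^ 2 := by
        rw [hQ']
        ring

end Pool.Agent.H48.HFQ
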