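import Pool.Agent.H34.FQ.Targets
import Pool.Agent.H49.RQ.PBD

/-!
Row PB1 of hfq_modules (MP_63b6b1_nt): the bounds for independent vectors.
-/

set_option autoImplicit false

open Finset Pool.Agent.H32.RQ Pool.Agent.H34.FQ

namespace Pool.Agent.H48.HFQ

theorem nu_le1 {s B : ℕ} (x : Fin s → ℤ) (hx : ∀ i, |x i| ≤ (B : ℤ)) (p : Mon s) :
    |nu x p| ≤ (B : ℤ) ^ 2 := by
  unfold nu
  rw [abs_mul]
  calc |x p.1.1| * |x p.1.2| ≤ (B : ℤ) * (B : ℤ) :=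
        mul_le_mul (hx _) (hx _) (abs_nonneg _) (by positivity)
    _ = (B : ℤ) ^ 2 := by ring

theorem delta_le1 {s B : ℕ} (x y : Fin s → ℤ) (hx : ∀ i, |x i| ≤ (B : ℤ))
    (hy : ∀ i, |y i| ≤ (B : ℤ)) (p q : Mon s) :
    (nu x p * nu y q - nu x q * nu y p).natAbs ≤ 2 * B ^ 4 := by
  have h1 : |nu x p * nu y q| ≤ (B : ℤ) ^ 4 := by
    rw [abs_mul]
    calc |nu x p| * |nu y q| ≤ (B : ℤ) ^ 2 * (B : ℤ) ^ 2 :=
          mul_le_mul (nu_le1 x hx _) (nu_le1 y hy _) (abs_nonneg _) (by positivity)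
      _ = (B : ℤ) ^ 4 := by ring
  have h2 : |nu x q * nu y p| ≤ (B : ℤ) ^ 4 := by
    rw [abs_mul]
    calc |nu x q| * |nu y p| ≤ (B : ℤ) ^ 2 * (B : ℤ) ^ 2 :=
          mul_le_mul (nu_le1 x hx _) (nu_le1 y hy _) (abs_nonneg _) (by positivity)
      _ = (B : ℤ) ^ 4 := by ring
  have h3 := abs_sub (nu x p * nu y q) (nu x q * nu y p)
  zify
  linarith

theorem pf_PB1 (hPX1 : T_PX1) (hDL1 : T_DL1) (_hPKP : T_PKP) (hKPB : T_KPB) (hFJB : T_FJB) :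
    T_PB1 := by
  intro s K
  refine ⟨1152 * ((K : ℝ) + 1) ^ 4, by positivity, ?_⟩
  intro B D A J Q W T _ x y hA hBD hQ hJb hW hWQ hTQ hWT hx hy hdm
  have hB : 1 ≤ B := by
    rcases Nat.eq_zero_or_pos B with h | h
    · exfalso
      obtain ⟨a, ha⟩ := hx.prm
      have h0 : ∀ i, x i = 0 := by
        intro i
        have := hx.bd i
        rw [h] at this
        simpa using this
      simp [h0] at ha
    · exact h
  have hb16 : 1 ≤ B ^ 4 := Nat.one_le_pow _ _ hB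
  have hJ : 1 ≤ J := by omega
  have hJ0 : (0 : ℝ) < J := by exact_mod_cast hJ
  have hA0 : (0 : ℝ) < A := by exact_mod_cast hA
  have hQr : (Q : ℝ) = 2 * A * J := by exact_mod_cast hQ
  have hQ0 : (0 : ℝ) < Q := by rw [hQr]; positivity
  obtain ⟨i, hi⟩ := hx.big
  obtain ⟨j, hj⟩ := hy.big
  obtain ⟨p, q, hpq⟩ := hDL1 s x y i j
  obtain ⟨Δ, hΔ⟩ : ∃ Δ : ℕ, Δ = (nu x p * nu y q - nu x q * nu y p).natAbs := ⟨_, rfl⟩
  rw [← hΔ] at hpq
  have hdm1 : 1 ≤ dm x y := Nat.one_le_iff_ne_zero.mpr hdm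
  have hi' : B ≤ K * (x i).natAbs := by
    zify
    exact hi
  have hj' : B ≤ K * (y j).natAbs := by
    zify
    exact hj
  have hbdn : B ^ 2 * dm x y ≤ 8 * K ^ 2 * Δ := by
    calc B ^ 2 * dm x y = B * B * dm x y := by ring
      _ ≤ (K * (x i).natAbs) * (K * (y j).natAbs) * dm x y := by gcongr
      _ = K ^ 2 * ((x i).natAbs * (y j).natAbs * dm x y) := by ring
      _ ≤ K ^ 2 * (8 * Δ) := Nat.mul_le_mul_left _ hpq
      _ = 8 * K ^ 2 * Δ := by ring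
  have hΔ1 : 1 ≤ Δ := by
    by_contra h
    have h0 : Δ = 0 := by omega
    rw [h0, mul_zero] at hbdn
    have : 0 < B ^ 2 * dm x y := by positivity
    omega
  have hΔJ : Δ ≤ J := by
    have := delta_le1 x y hx.bd hy.bd p q
    omega
  have hΔ0 : (0 : ℝ) < Δ := by exact_mod_cast hΔ1
  obtain ⟨hcard, hfreq⟩ := hPX1 s B K D A J Q W x y p q Δ hA hBD hQ hW hWQ hx hy hdm hΔ hΔ1 hΔJ
  have hbd : (B : ℝ) ^ 2 * dm x y ≤ 8 * (K : ℝ) ^ 2 * Δ := by exact_mod_cast hbdn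
  have hbd0 : (0 : ℝ) ≤ (B : ℝ) ^ 2 * dm x y := by positivity
  set Z : ℝ := ((zs Q J x y).card : ℝ) with hZ
  have hZ0 : 0 ≤ Z := Nat.cast_nonneg _
  have hK2 : 72 * (K : ℝ) ^ 2 ≤ 1152 * ((K : ℝ) + 1) ^ 4 := by
    have hK0 : (0 : ℝ) ≤ K := Nat.cast_nonneg _
    have e1 : (K : ℝ) ^ 2 ≤ ((K : ℝ) + 1) ^ 2 := by nlinarith
    have e2 : (1 : ℝ) ≤ ((K : ℝ) + 1) ^ 2 := by nlinarith
    have e3 : ((K : ℝ) + 1) ^ 4 = ((K : ℝ) + 1) ^ 2 * ((K : ℝ) + 1) ^ 2 := by ring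
    nlinarith
  have hK4 : 1152 * (K : ℝ) ^ 4 ≤ 1152 * ((K : ℝ) + 1) ^ 4 := by
    have hK0 : (0 : ℝ) ≤ K := Nat.cast_nonneg _
    have := pow_le_pow_left₀ hK0 (by linarith : (K : ℝ) ≤ K + 1) 4
    linarith
  have hg0 : (0 : ℝ) ≤ gm x y := Nat.cast_nonneg _
  constructor
  · unfold pp
    have h1 : ∑ j : ZMod Q, ∑ k : ZMod Q, rr Q J x y j k ≤ Z * 1 := by
      have := Pool.Agent.H49.RQ.sum_zs (Q := Q) hFJB hJ x y (fun _ => 1) 1 (fun _ _ => le_rfl)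
        (fun _ => zero_le_one)
      simpa only [one_mul] using this
    rw [mul_one] at h1
    have h2 : (∑ j : ZMod Q, ∑ k : ZMod Q, rr Q J x y j k) / (Q : ℝ) ^ 2 *
        ((2 * (A : ℝ)) ^ 2 * (B : ℝ) ^ 2 * dm x y) =
        (∑ j : ZMod Q, ∑ k : ZMod Q, rr Q J x y j k) * ((B : ℝ) ^ 2 * dm x y) / (J : ℝ) ^ 2 := by
      rw [hQr]
      field_simp
    rw [h2, div_le_iff₀ (by positivity)]
    calc (∑ j : ZMod Q, ∑ k : ZMod Q, rr Q J x y j k) * ((B : ℝ) ^ 2 * dm x y)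
        ≤ Z * (8 * (K : ℝ) ^ 2 * Δ) := mul_le_mul h1 hbd hbd0 hZ0
      _ = 8 * (K : ℝ) ^ 2 * (Z * Δ) := by ring
      _ ≤ 8 * (K : ℝ) ^ 2 * (9 * gm x y * (J : ℝ) ^ 2) :=
          mul_le_mul_of_nonneg_left hcard (by positivity)
      _ = 72 * (K : ℝ) ^ 2 * (gm x y * (J : ℝ) ^ 2) := by ring
      _ ≤ 1152 * ((K : ℝ) + 1) ^ 4 * (gm x y * (J : ℝ) ^ 2) :=
          mul_le_mul_of_nonneg_right hK2 (by positivity)
      _ = _ := by ring
  · intro hg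
    unfold pk
    obtain ⟨hk1, hk2⟩ := hKPB Q W T hW hWQ hTQ hWT
    set C : ℝ := 2 * J * (B : ℝ) ^ 2 / Δ * T / Q with hC
    have hC0 : 0 ≤ C := by positivity
    have h1 : ∑ j : ZMod Q, ∑ k : ZMod Q, (1 - kap Q W T j) * rr Q J x y j k ≤ Z * C := by
      refine Pool.Agent.H49.RQ.sum_zs (Q := Q) hFJB hJ x y (fun j => 1 - kap Q W T j) C ?_ ?_
      · intro z hz
        obtain ⟨a, n, hz1, hn⟩ := hfreq hg z hz
        have h2 := hk2 a n z.1 hz1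
        have h3 : |(n : ℝ)| * T / Q ≤ C := by
          rw [hC]
          apply div_le_div_of_nonneg_right _ hQ0.le
          apply mul_le_mul_of_nonneg_right _ (Nat.cast_nonneg _)
          rw [le_div_iff₀ hΔ0]
          exact_mod_cast hn
        show 1 - kap Q W T z.1 ≤ C
        linarith
      · intro j
        have := (hk1 j).2
        show 0 ≤ 1 - kap Q W T j
        linarith
    have hT0 : (0 : ℝ) ≤ T := Nat.cast_nonneg _
    have hd0 : (0 : ℝ) ≤ dm x y := Nat.cast_nonneg _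
    calc (∑ j : ZMod Q, ∑ k : ZMod Q, (1 - kap Q W T j) * rr Q J x y j k) / (Q : ℝ) ^ 2 *
          ((2 * (A : ℝ)) ^ 3 * (B : ℝ) ^ 2 * (dm x y : ℝ) ^ 2)
        ≤ (Z * C) / (Q : ℝ) ^ 2 *
          ((2 * (A : ℝ)) ^ 3 * (B : ℝ) ^ 2 * (dm x y : ℝ) ^ 2) := by
          apply mul_le_mul_of_nonneg_right _ (by positivity)
          exact div_le_div_of_nonneg_right h1 (by positivity)
      _ = 2 * T * Z * ((B : ℝ) ^ 2 * dm x y) ^ 2 / (Δ * (J : ℝ) ^ 2) := by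
          rw [hC, hQr]
          field_simp
      _ ≤ 1152 * ((K : ℝ) + 1) ^ 4 * gm x y * T := by
          rw [div_le_iff₀ (by positivity)]
          have h4 : ((B : ℝ) ^ 2 * dm x y) ^ 2 ≤ (8 * (K : ℝ) ^ 2 * Δ) ^ 2 :=
            pow_le_pow_left₀ hbd0 hbd 2
          calc 2 * T * Z * ((B : ℝ) ^ 2 * dm x y) ^ 2 ≤ 2 * T * Z * (8 * (K : ℝ) ^ 2 * Δ) ^ 2 :=
                mul_le_mul_of_nonneg_left h4 (by positivity)
            _ = 128 * (K : ℝ) ^ 4 * T * Δ * (Z * Δ) := by ring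
            _ ≤ 128 * (K : ℝ) ^ 4 * T * Δ * (9 * gm x y * (J : ℝ) ^ 2) :=
                mul_le_mul_of_nonneg_left hcard (by positivity)
            _ = 1152 * (K : ℝ) ^ 4 * (gm x y * T * (Δ * (J : ℝ) ^ 2)) := by ring
            _ ≤ 1152 * ((K : ℝ) + 1) ^ 4 * (gm x y * T * (Δ * (J : ℝ) ^ 2)) :=
                mul_le_mul_of_nonneg_right hK4 (by positivity)
            _ = 1152 * ((K : ℝ) + 1) ^ 4 * gm x y * T * (Δ * (J : ℝ) ^ 2) := by ring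

end Pool.Agent.H48.HFQ
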