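import Pool.Agent.H34.FQ.Targets
import Pool.Agent.H68.RQ.HEN

/-!
Rows QRC, QZC of hfq_modules (MP_63b6b1_nt).
-/

set_option autoImplicit false

open Finset Pool.Agent.H32.RQ Pool.Agent.H34.FQ

namespace Pool.Agent.H48.HFQ

theorem nilp (p t : ℕ) : IsNilpotent (p : ZMod (p ^ t)) := by
  refine ⟨t, ?_⟩
  have h := ZMod.natCast_self (p ^ t)
  rw [← h]
  push_cast
  rfl

theorem unit_add {p t : ℕ} (v : ZMod (p ^ t)) (hv : IsUnit v) (z : ZMod (p ^ t)) :
    IsUnit (v + (p : ZMod (p ^ t)) * z) := by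
  refine IsNilpotent.isUnit_add_left_of_commute ?_ hv (Commute.all _ _)
  exact (Commute.all _ _).isNilpotent_mul_right (nilp p t)

theorem ann {p t d : ℕ} [NeZero (p ^ t)] (hp : p.Prime) (hd : d ≤ t) (δ : ZMod (p ^ t))
    (h : (p : ZMod (p ^ t)) ^ d * δ = 0) :
    ∃ j < p ^ d, δ = ((p ^ (t - d) * j : ℕ) : ZMod (p ^ t)) := by
  have h1 : ((p ^ d * δ.val : ℕ) : ZMod (p ^ t)) = 0 := by
    push_cast
    rw [ZMod.natCast_zmod_val]
    exact h
  rw [ZMod.natCast_eq_zero_iff] at h1
  have h2 : p ^ t = p ^ d * p ^ (t - d) := by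
    rw [← pow_add]
    congr 1
    omega
  have h3 : p ^ (t - d) ∣ δ.val := by
    refine Nat.dvd_of_mul_dvd_mul_left (pow_pos hp.pos d) ?_
    rw [← h2]
    exact h1
  obtain ⟨j, hj⟩ := h3
  refine ⟨j, ?_, ?_⟩
  · have h4 : δ.val < p ^ d * p ^ (t - d) := lt_of_lt_of_eq (ZMod.val_lt δ) h2
    rw [hj, mul_comm (p ^ d)] at h4
    exact Nat.lt_of_mul_lt_mul_left h4
  · rw [← hj, ZMod.natCast_zmod_val]

theorem pf_QRC : T_QRC := by
  classical
  intro p t e _ a b c hp
  set S : Finset (ZMod (p ^ t)) := Finset.univ.filter fun x : ZMod (p ^ t) =>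
    a * x ^ 2 + b * x + c = 0 ∧ ∃ d : ℕ, d ≤ e ∧ d < t ∧ ∃ v : ZMod (p ^ t), IsUnit v ∧
        2 * a * x + b = (p : ZMod (p ^ t)) ^ d * v with hS
  have key : ∀ k ∈ S.image (fun x => x.val % p ^ (e + 1)),
      (S.filter fun x => x.val % p ^ (e + 1) = k).card ≤ p ^ e := by
    intro k hk
    obtain ⟨x0, hx0, hk0⟩ := Finset.mem_image.1 hk
    rw [hS, Finset.mem_filter] at hx0
    obtain ⟨-, hr0, d, hde, hdt, v, hv, hvd⟩ := hx0
    have hsub : (S.filter fun x => x.val % p ^ (e + 1) = k) ⊆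
        (Finset.range (p ^ d)).image
          (fun j => x0 + ((p ^ (t - d) * j : ℕ) : ZMod (p ^ t))) := by
      intro x hx
      rw [Finset.mem_filter, hS, Finset.mem_filter] at hx
      obtain ⟨⟨-, hr, -⟩, hxk⟩ := hx
      have hmod : ((p ^ (e + 1) : ℕ) : ℤ) ∣ (x.val : ℤ) - x0.val := by
        have h1 : x0.val ≡ x.val [MOD p ^ (e + 1)] := by
          show x0.val % _ = x.val % _
          rw [hxk]
          exact hk0
        exact (Nat.modEq_iff_dvd.1 h1)
      obtain ⟨w, hw⟩ := hmod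
      have hδ : x - x0 = (p : ZMod (p ^ t)) ^ (e + 1) * (w : ZMod (p ^ t)) := by
        have h1 := congrArg (fun z : ℤ => (z : ZMod (p ^ t))) hw
        simp only [Int.cast_sub, Int.cast_mul, Int.cast_natCast, ZMod.natCast_zmod_val,
          Nat.cast_pow, Int.cast_pow] at h1
        exact h1
      have h2 : (x - x0) * (2 * a * x0 + b + a * (x - x0)) = 0 := by
        linear_combination hr - hr0
      have h3 : 2 * a * x0 + b + a * (x - x0) =
          (p : ZMod (p ^ t)) ^ d * (v + (p : ZMod (p ^ t)) *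
            ((p : ZMod (p ^ t)) ^ (e - d) * (a * w))) := by
        have h4 : (p : ZMod (p ^ t)) ^ (e + 1) =
            (p : ZMod (p ^ t)) ^ d * ((p : ZMod (p ^ t)) * (p : ZMod (p ^ t)) ^ (e - d)) := by
          rw [← pow_succ', ← pow_add]
          congr 1
          omega
        rw [hvd, hδ, h4]
        ring
      have hu := unit_add v hv ((p : ZMod (p ^ t)) ^ (e - d) * (a * w))
      rw [h3] at h2
      have h5 : (p : ZMod (p ^ t)) ^ d * (x - x0) = 0 := by
        have h6 : ((p : ZMod (p ^ t)) ^ d * (x - x0)) * (v + (p : ZMod (p ^ t)) *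
            ((p : ZMod (p ^ t)) ^ (e - d) * (a * w))) = 0 := by
          linear_combination h2
        exact (hu.mul_left_eq_zero).1 h6
      obtain ⟨j, hj, hj2⟩ := ann hp hdt.le _ h5
      rw [Finset.mem_image]
      exact ⟨j, Finset.mem_range.2 hj, by rw [← hj2]; ring⟩
    refine (Finset.card_le_card hsub).trans (Finset.card_image_le.trans ?_)
    rw [Finset.card_range]
    exact Nat.pow_le_pow_right hp.pos hde
  have h1 := Finset.card_le_mul_card_image S (p ^ e) key
  have h2 : (S.image (fun x => x.val % p ^ (e + 1))).card ≤ p ^ (e + 1) := by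
    have : S.image (fun x => x.val % p ^ (e + 1)) ⊆ Finset.range (p ^ (e + 1)) := by
      intro k hk
      obtain ⟨x, -, hx⟩ := Finset.mem_image.1 hk
      rw [Finset.mem_range, ← hx]
      exact Nat.mod_lt _ (pow_pos hp.pos _)
    refine (Finset.card_le_card this).trans ?_
    rw [Finset.card_range]
  calc S.card ≤ p ^ e * (S.image (fun x => x.val % p ^ (e + 1))).card := h1
    _ ≤ p ^ e * p ^ (e + 1) := Nat.mul_le_mul_left _ h2
    _ = p ^ (2 * e + 1) := by
        rw [← pow_add]
        congr 1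
        omega

theorem unit_form {p t : ℕ} [NeZero (p ^ t)] (hp : p.Prime) (x : ZMod (p ^ t)) :
    x = 0 ∨ ∃ a, a < t ∧ ∃ v : ZMod (p ^ t), IsUnit v ∧ x = (p : ZMod (p ^ t)) ^ a * v := by
  by_cases hx : x = 0
  · exact Or.inl hx
  right
  have h0 : x.val ≠ 0 := fun h => hx ((ZMod.val_eq_zero x).1 h)
  obtain ⟨a, m, hm, hxm⟩ := Nat.exists_eq_pow_mul_and_not_dvd h0 p hp.ne_one
  have hm0 : 0 < m := Nat.pos_of_ne_zero (fun h => by rw [h, mul_zero] at hxm; exact h0 hxm)
  have hat : a < t := by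
    have h4 : x.val < p ^ t := ZMod.val_lt x
    have h5 : p ^ a ≤ x.val := by
      rw [hxm]
      exact Nat.le_mul_of_pos_right _ hm0
    exact (Nat.pow_lt_pow_iff_right hp.one_lt).1 (lt_of_le_of_lt h5 h4)
  refine ⟨a, hat, (m : ZMod (p ^ t)), ?_, ?_⟩
  · rw [ZMod.isUnit_iff_coprime]
    exact Nat.Coprime.pow_right _ ((Nat.Prime.coprime_iff_not_dvd hp).2 hm).symm
  · have h1 := congrArg (fun z : ℕ => (z : ZMod (p ^ t))) hxm
    simp only [ZMod.natCast_zmod_val, Nat.cast_mul, Nat.cast_pow] at h1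
    exact h1

theorem pow_ne {p t d : ℕ} (hp : p.Prime) (hd : d < t) : (p : ZMod (p ^ t)) ^ d ≠ 0 := by
  intro h
  have h1 : ((p ^ d : ℕ) : ZMod (p ^ t)) = 0 := by
    push_cast
    exact h
  rw [ZMod.natCast_eq_zero_iff] at h1
  exact absurd ((Nat.pow_dvd_pow_iff_le_right hp.one_lt).1 h1) (by omega)

section forms

variable {R : Type} [CommRing R] {s : ℕ}

/-- a multiple of a unit vector -/
def sg (l : Fin s) (u : R) : Fin s → R := fun j => if j = l then u else 0

theorem qf_sg (F : Mon s → R) (l : Fin s) (u : R) :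
    qf F (sg l u) = F ⟨(l, l), le_refl l⟩ * u ^ 2 := by
  unfold qf
  rw [Finset.sum_eq_single (⟨(l, l), le_refl l⟩ : Mon s)]
  · simp [sg]
    ring
  · rintro ⟨⟨i, j⟩, hij⟩ _ hne
    have : ¬ (i = l ∧ j = l) := by
      rintro ⟨rfl, rfl⟩
      exact hne rfl
    by_cases hi : i = l
    · have hj : j ≠ l := fun h => this ⟨hi, h⟩
      simp [sg, hj]
    · simp [sg, hi]
  · intro h
    exact absurd (Finset.mem_univ _) h

theorem dq_sg (F : Mon s → R) (l : Fin s) (u : R) :
    dq F (sg l u) l = 2 * F ⟨(l, l), le_refl l⟩ * u := by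
  unfold dq
  rw [Finset.sum_eq_single (⟨(l, l), le_refl l⟩ : Mon s)]
  · simp [sg]
    ring
  · rintro ⟨⟨i, j⟩, hij⟩ _ hne
    have : ¬ (i = l ∧ j = l) := by
      rintro ⟨rfl, rfl⟩
      exact hne rfl
    by_cases hi : i = l
    · have hj : j ≠ l := fun h => this ⟨hi, h⟩
      simp [sg, hj]
    · by_cases hj : j = l
      · simp [sg, hi]
      · simp [hi, hj]
  · intro h
    exact absurd (Finset.mem_univ _) h

theorem dq_add (F : Mon s → R) (x y : Fin s → R) (l : Fin s) :
    dq F (fun j => x j + y j) l = dq F x l + dq F y l := by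
  unfold dq
  rw [← Finset.sum_add_distrib]
  refine Finset.sum_congr rfl fun p _ => ?_
  split_ifs <;> ring

theorem qf_line (F : Mon s → R) (y : Fin s → R) (l : Fin s) (u : R) :
    qf F (fun j => y j + sg l u j) =
      F ⟨(l, l), le_refl l⟩ * u ^ 2 + dq F y l * u + qf F y := by
  rw [Pool.Agent.H68.RQ.qf_add, qf_sg]
  have : ∑ j, dq F y j * sg l u j = dq F y l * u := by
    rw [Finset.sum_eq_single l]
    · simp [sg]
    · intro j _ hj
      simp [sg, hj]
    · intro h
      exact absurd (Finset.mem_univ _) h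
  rw [this]
  ring

end forms

open Classical in
theorem pf_QZC (hQRC : T_QRC) : T_QZC := by
  intro s p t e _ F i₀ hs hp
  set Sl : Fin s → Finset (Fin s → ZMod (p ^ t)) := fun l =>
    Finset.univ.filter fun x : Fin s → ZMod (p ^ t) => x i₀ = 1 ∧ qf F x = 0 ∧
      ∃ d : ℕ, d ≤ e ∧ d < t ∧ ∃ v : ZMod (p ^ t), IsUnit v ∧ dq F x l = (p : ZMod (p ^ t)) ^ d * v with hSl
  have hcov : (Finset.univ.filter fun x : Fin s → ZMod (p ^ t) => x i₀ = 1 ∧ qf F x = 0 ∧
      ∃ j, ∃ d : ℕ, d ≤ e ∧ d < t ∧ ∃ v : ZMod (p ^ t), IsUnit v ∧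
        dq F x j = (p : ZMod (p ^ t)) ^ d * v) ⊆ (Finset.univ.erase i₀).biUnion Sl := by
    intro x hx
    rw [Finset.mem_filter] at hx
    obtain ⟨-, hx1, hx2, j, d, hde, hdt, v, hv, hdv⟩ := hx
    by_contra hcon
    rw [Finset.mem_biUnion] at hcon
    have hno : ∀ l, l ≠ i₀ → ∃ w : ZMod (p ^ t), dq F x l = (p : ZMod (p ^ t)) ^ (e + 1) * w := by
      intro l hl
      rcases unit_form hp (dq F x l) with h | ⟨a, hat, u, hu, hau⟩
      · exact ⟨0, by rw [h, mul_zero]⟩
      · by_cases hae : a ≤ e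
        · refine absurd ⟨l, Finset.mem_erase.2 ⟨hl, Finset.mem_univ _⟩, ?_⟩ hcon
          rw [hSl]
          exact Finset.mem_filter.2 ⟨Finset.mem_univ _, hx1, hx2, a, hae, hat, u, hu, hau⟩
        · refine ⟨(p : ZMod (p ^ t)) ^ (a - (e + 1)) * u, ?_⟩
          rw [hau, ← mul_assoc, ← pow_add]
          congr 2
          omega
    have hall : ∃ w : ZMod (p ^ t), dq F x j = (p : ZMod (p ^ t)) ^ (e + 1) * w := by
      by_cases hj : j = i₀
      · choose! w hw using hno
        have heu := Pool.Agent.H13.RQ.Hs_euler F x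
        rw [hx2, mul_zero, ← Finset.add_sum_erase _ _ (Finset.mem_univ i₀), hx1, one_mul] at heu
        refine ⟨-∑ l ∈ Finset.univ.erase i₀, x l * w l, ?_⟩
        have h1 : ∑ l ∈ Finset.univ.erase i₀, x l * dq F x l =
            (p : ZMod (p ^ t)) ^ (e + 1) * ∑ l ∈ Finset.univ.erase i₀, x l * w l := by
          rw [Finset.mul_sum]
          refine Finset.sum_congr rfl fun l hl => ?_
          rw [hw l (Finset.mem_erase.1 hl).1]
          ring
        rw [h1] at heu
        rw [hj]
        linear_combination heu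
      · exact hno j hj
    obtain ⟨w, hw⟩ := hall
    rw [hdv] at hw
    have h4 : (p : ZMod (p ^ t)) ^ (e + 1) = (p : ZMod (p ^ t)) ^ d * ((p : ZMod (p ^ t)) * (p : ZMod (p ^ t)) ^ (e - d)) := by
      rw [← pow_succ', ← pow_add]
      congr 1
      omega
    rw [h4] at hw
    have hu : IsUnit (v + (p : ZMod (p ^ t)) * (-((p : ZMod (p ^ t)) ^ (e - d) * w))) := unit_add v hv _
    have h6 : (p : ZMod (p ^ t)) ^ d * (v + (p : ZMod (p ^ t)) * (-((p : ZMod (p ^ t)) ^ (e - d) * w))) = 0 := by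
      linear_combination hw
    exact pow_ne hp hdt ((hu.mul_left_eq_zero).1 h6)
  have hcard : ∀ l, l ≠ i₀ → (Sl l).card ≤ p ^ (2 * e + 1) * (p ^ t) ^ (s - 2) := by
    intro l hl
    set res : (Fin s → ZMod (p ^ t)) → ({i : Fin s // i ≠ i₀ ∧ i ≠ l} → ZMod (p ^ t)) := fun x i => x i
      with hres
    have key : ∀ z ∈ (Sl l).image res, ((Sl l).filter fun x => res x = z).card ≤
        p ^ (2 * e + 1) := by
      intro z hz
      obtain ⟨x0, hx0, hz0⟩ := Finset.mem_image.1 hz
      rw [hSl, Finset.mem_filter] at hx0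
      set y : Fin s → ZMod (p ^ t) := fun j => if j = l then 0 else x0 j with hy
      have hb := hQRC p t e (F ⟨(l, l), le_refl l⟩) (dq F y l) (qf F y) hp
      refine le_trans (Finset.card_le_card_of_injOn (fun x => x l) ?_ ?_) hb
      · intro x hx
        have hx' := Finset.mem_filter.1 (Finset.mem_coe.1 hx)
        obtain ⟨hxS, hxz⟩ := hx'
        rw [hSl, Finset.mem_filter] at hxS
        obtain ⟨-, h1, h2, d, hde, hdt, v, hv, hdv⟩ := hxS
        have hxe : x = fun j => y j + sg l (x l) j := by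
          funext j
          by_cases hj : j = l
          · rw [hj]
            simp [hy, sg]
          · have h3 : x j = x0 j := by
              by_cases hj0 : j = i₀
              · rw [hj0, h1, hx0.2.1]
              · have := congrFun (hxz.trans hz0.symm) ⟨j, hj0, hj⟩
                exact this
            simp [hy, sg, hj, h3]
        rw [Finset.mem_coe, Finset.mem_filter]
        refine ⟨Finset.mem_univ _, ?_, d, hde, hdt, v, hv, ?_⟩
        · rw [← qf_line F y l (x l), ← hxe]
          exact h2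
        · rw [← hdv]
          conv_rhs => rw [hxe]
          rw [dq_add, dq_sg]
          ring
      · intro x hx x' hx' hxx
        have hx1 := Finset.mem_filter.1 (Finset.mem_coe.1 hx)
        have hx2 := Finset.mem_filter.1 (Finset.mem_coe.1 hx')
        have e1 : x i₀ = 1 := (Finset.mem_filter.1 hx1.1).2.1
        have e2 : x' i₀ = 1 := (Finset.mem_filter.1 hx2.1).2.1
        funext j
        by_cases hj : j = l
        · rw [hj]; exact hxx
        by_cases hj0 : j = i₀
        · rw [hj0, e1, e2]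
        · exact congrFun (hx1.2.trans hx2.2.symm) ⟨j, hj0, hj⟩
    have h1 := Finset.card_le_mul_card_image (Sl l) (p ^ (2 * e + 1)) key
    refine h1.trans (Nat.mul_le_mul_left _ ?_)
    refine (Finset.card_le_univ _).trans ?_
    rw [Fintype.card_fun, ZMod.card]
    refine Nat.pow_le_pow_right (Nat.pos_of_ne_zero (NeZero.ne _)) ?_
    rw [Fintype.card_subtype]
    have h2 : (Finset.univ.filter fun i : Fin s => i ≠ i₀ ∧ i ≠ l) =
        (Finset.univ.erase i₀).erase l := by
      ext i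
      simp only [Finset.mem_filter, Finset.mem_univ, true_and, Finset.mem_erase, and_true]
      tauto
    rw [h2, Finset.card_erase_of_mem (Finset.mem_erase.2 ⟨hl, Finset.mem_univ _⟩),
      Finset.card_erase_of_mem (Finset.mem_univ _), Finset.card_univ, Fintype.card_fin]
    omega
  refine (Finset.card_le_card hcov).trans (Finset.card_biUnion_le.trans ?_)
  refine (Finset.sum_le_sum fun l hl => hcard l (Finset.mem_erase.1 hl).1).trans ?_
  rw [Finset.sum_const, smul_eq_mul, ← mul_assoc]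
  refine Nat.mul_le_mul_right _ (Nat.mul_le_mul_right _ ?_)
  refine (Finset.card_erase_le).trans ?_
  rw [Finset.card_univ, Fintype.card_fin]

end Pool.Agent.H48.HFQ
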