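import Pool.Agent.H34.FQ.Targets
import Pool.Agent.H48.HFQ.QRC

/-!
Row PN1 of hfq_modules (MP_63b6b1_nt): forms which are bad at `p` are rare.
-/

set_option autoImplicit false

open Finset Pool.Agent.H32.RQ Pool.Agent.H34.FQ

namespace Pool.Agent.H48.HFQ

theorem cf_qf (M : ℕ) {s : ℕ} (f : Mon s → ℤ) (x : Fin s → ℤ) :
    qf (cf (ZMod M) f) (fun j => (x j : ZMod M)) = ((qf f x : ℤ) : ZMod M) := by
  unfold qf cf
  push_cast
  rfl

theorem cf_dq (M : ℕ) {s : ℕ} (f : Mon s → ℤ) (x : Fin s → ℤ) (j : Fin s) :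
    dq (cf (ZMod M) f) (fun j => (x j : ZMod M)) j = ((dq f x j : ℤ) : ZMod M) := by
  unfold dq cf
  rw [Int.cast_sum]
  refine Finset.sum_congr rfl fun p _ => ?_
  split_ifs <;> push_cast <;> ring

theorem card_b1 (s A : ℕ) : (b1 s A).card = (2 * A + 1) ^ md s := by
  unfold b1
  rw [Fintype.card_piFinset]
  have h : (Finset.Icc (-(A : ℤ)) A).card = 2 * A + 1 := by
    rw [Int.card_Icc]
    omega
  rw [Finset.prod_congr rfl fun _ _ => h, Finset.prod_const, Finset.card_univ]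

/-- at a primitive vector some partial derivative is not divisible by a high power of `p` -/
theorem grad_unit {s p t e : ℕ} [NeZero (p ^ t)] (hp : p.Prime) (het : e < t) (F : Mon s → ℤ)
    (hdet : ¬ (p : ℤ) ^ (e + 1) ∣ (gr F).det) (x : Fin s → ZMod (p ^ t)) (i : Fin s)
    (hu : IsUnit (x i)) :
    ∃ j, ∃ d : ℕ, d ≤ e ∧ d < t ∧ ∃ v : ZMod (p ^ t), IsUnit v ∧
      dq (cf (ZMod (p ^ t)) F) x j = (p : ZMod (p ^ t)) ^ d * v := by
  by_contra hcon
  have hno : ∀ l, ∃ w : ZMod (p ^ t),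
      dq (cf (ZMod (p ^ t)) F) x l = (p : ZMod (p ^ t)) ^ (e + 1) * w := by
    intro l
    rcases unit_form hp (dq (cf (ZMod (p ^ t)) F) x l) with h | ⟨a, hat, u, hu, hau⟩
    · exact ⟨0, by rw [h, mul_zero]⟩
    · by_cases hae : a ≤ e
      · exact absurd ⟨l, a, hae, hat, u, hu, hau⟩ hcon
      · refine ⟨(p : ZMod (p ^ t)) ^ (a - (e + 1)) * u, ?_⟩
        rw [hau, ← mul_assoc, ← pow_add]
        congr 2
        omega
  choose w hw using hno
  set H : Matrix (Fin s) (Fin s) (ZMod (p ^ t)) := Pool.Agent.H13.RQ.Hs (cf (ZMod (p ^ t)) F)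
    with hH
  have h1 : H.mulVec x = fun l => (p : ZMod (p ^ t)) ^ (e + 1) * w l := by
    funext l
    rw [← hw l, ← Pool.Agent.H13.RQ.Hs_mulVec]
    rfl
  have h2 : H.adjugate.mulVec (H.mulVec x) = H.det • x := by
    rw [Matrix.mulVec_mulVec, Matrix.adjugate_mul, Matrix.smul_mulVec, Matrix.one_mulVec]
  have h3 : H.det * x i = (p : ZMod (p ^ t)) ^ (e + 1) * ∑ l, H.adjugate i l * w l := by
    have h4 := congrFun h2 i
    rw [h1] at h4
    rw [show (H.det • x) i = H.det * x i from rfl] at h4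
    rw [← h4, Finset.mul_sum]
    show ∑ l, H.adjugate i l * ((p : ZMod (p ^ t)) ^ (e + 1) * w l) = _
    exact Finset.sum_congr rfl fun l _ => by ring
  have h5 : H.det = (((gr F).det : ℤ) : ZMod (p ^ t)) := by
    have e1 := RingHom.map_det (Int.castRingHom (ZMod (p ^ t))) (gr F)
    rw [show (((gr F).det : ℤ) : ZMod (p ^ t)) = Int.castRingHom (ZMod (p ^ t)) (gr F).det from rfl,
      e1]
    congr 1
    ext j l
    have e2 := Pool.Agent.H13.RQ.Hs_map (Int.castRingHom (ZMod (p ^ t))) F j l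
    exact e2.symm
  obtain ⟨u, hu'⟩ := hu
  obtain ⟨W, hW⟩ : ∃ W : ZMod (p ^ t), H.det = (p : ZMod (p ^ t)) ^ (e + 1) * W := by
    refine ⟨(∑ l, H.adjugate i l * w l) * ((u⁻¹ : (ZMod (p ^ t))ˣ) : ZMod (p ^ t)), ?_⟩
    rw [← mul_assoc, ← h3, ← hu', mul_assoc, Units.mul_inv, mul_one]
  have h6 : (((gr F).det - (p : ℤ) ^ (e + 1) * (W.val : ℤ) : ℤ) : ZMod (p ^ t)) = 0 := by
    rw [Int.cast_sub, Int.cast_mul, Int.cast_pow, Int.cast_natCast, Int.cast_natCast,
      ZMod.natCast_zmod_val, ← h5, hW]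
    ring
  rw [ZMod.intCast_zmod_eq_zero_iff_dvd] at h6
  apply hdet
  have h7 : (p : ℤ) ^ (e + 1) ∣ ((p ^ t : ℕ) : ℤ) := by
    push_cast
    exact pow_dvd_pow _ (by omega)
  have h8 := h7.trans h6
  have h9 : (p : ℤ) ^ (e + 1) ∣ (p : ℤ) ^ (e + 1) * (W.val : ℤ) := Dvd.intro _ rfl
  have h10 := dvd_add h8 h9
  rwa [sub_add_cancel] at h10

open Classical in
theorem pf_PN1 (hPNG : T_PNG) (hTB1 : T_TB1) : T_PN1 := by
  intro s F p hs hdet hp
  obtain ⟨e, he⟩ : ∃ e : ℕ, ¬ (p : ℤ) ^ (e + 1) ∣ (gr F).det := by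
    refine ⟨(gr F).det.natAbs, fun h => ?_⟩
    have h1 : ((p ^ ((gr F).det.natAbs + 1) : ℕ) : ℤ) ∣ (gr F).det := by
      push_cast
      exact h
    have h2 := Int.natAbs_dvd_natAbs.2 h1
    rw [Int.natAbs_natCast] at h2
    have h3 := Nat.le_of_dvd (Int.natAbs_pos.2 hdet) h2
    have h4 : (gr F).det.natAbs + 1 < p ^ ((gr F).det.natAbs + 1) :=
      Nat.lt_pow_self hp.one_lt
    omega
  refine ⟨(p : ℝ) ^ e + 2 ^ md s * (s ^ 2 * (p : ℝ) ^ (2 * e + 1 + e * s)), ?_, ?_⟩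
  · have : (0 : ℝ) < p := by exact_mod_cast hp.pos
    positivity
  intro t A hM
  have hp0 : (0 : ℝ) < p := by exact_mod_cast hp.pos
  have hp1 : (1 : ℝ) ≤ p := by exact_mod_cast hp.one_lt.le
  rcases Nat.lt_or_ge e t with het | hte
  · have hne : NeZero (p ^ t) := ⟨(pow_pos hp.pos t).ne'⟩
    have h1 := hPNG s p t e (cf (ZMod (p ^ t)) F) hs hp
    set E : Finset (Mon s → ZMod (p ^ t)) := Finset.univ.filter fun f : Mon s → ZMod (p ^ t) =>
      ∃ x : Fin s → ZMod (p ^ t), (∃ i, IsUnit (x i)) ∧ qf (cf (ZMod (p ^ t)) F) x = 0 ∧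
      qf f x = 0 ∧ (∃ j, ∃ d : ℕ, d ≤ e ∧ d < t ∧ ∃ v : ZMod (p ^ t), IsUnit v ∧
        dq (cf (ZMod (p ^ t)) F) x j = (p : ZMod (p ^ t)) ^ d * v) ∧
      ∀ j l, jm ![cf (ZMod (p ^ t)) F, f] x j l = 0 with hE
    have h2 : ((b1 s A).filter fun f => NP t p ![F, f]) ⊆
        ((b1 s A).filter fun f => cf (ZMod (p ^ t)) f ∈ E) := by
      intro f hf
      rw [Finset.mem_filter] at hf ⊢
      refine ⟨hf.1, ?_⟩
      obtain ⟨x, ⟨i, hi⟩, hq, hj⟩ := hf.2
      have hcast : ∀ z : ℤ, (p : ℤ) ^ t ∣ z → (z : ZMod (p ^ t)) = 0 := by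
        intro z hz
        rw [ZMod.intCast_zmod_eq_zero_iff_dvd]
        push_cast
        exact hz
      have hu : IsUnit ((x i : ℤ) : ZMod (p ^ t)) := by
        have hcop : IsCoprime (x i) ((p : ℤ) ^ t) := by
          have h2 : Prime (p : ℤ) := Nat.prime_iff_prime_int.1 hp
          exact (IsCoprime.pow_left ((h2.coprime_iff_not_dvd).2 hi)).symm
        obtain ⟨a, b, hab⟩ := hcop
        have h3 : (a : ZMod (p ^ t)) * ((x i : ℤ) : ZMod (p ^ t)) = 1 := by
          have h4 := congrArg (Int.cast : ℤ → ZMod (p ^ t)) hab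
          push_cast at h4
          have h5 : (p : ZMod (p ^ t)) ^ t = 0 := by exact_mod_cast ZMod.natCast_self (p ^ t)
          rw [h5, mul_zero, add_zero] at h4
          exact h4
        exact IsUnit.of_mul_eq_one _ ((mul_comm _ _).trans h3)
      rw [hE, Finset.mem_filter]
      refine ⟨Finset.mem_univ _, fun j => (x j : ZMod (p ^ t)), ⟨i, hu⟩, ?_, ?_, ?_, ?_⟩
      · rw [cf_qf]
        exact hcast _ (hq 0)
      · rw [cf_qf]
        exact hcast _ (hq 1)
      · exact grad_unit hp het F he _ i hu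
      · intro j l
        show dq (cf (ZMod (p ^ t)) F) (fun j => (x j : ZMod (p ^ t))) j *
          dq (cf (ZMod (p ^ t)) f) (fun j => (x j : ZMod (p ^ t))) l -
          dq (cf (ZMod (p ^ t)) F) (fun j => (x j : ZMod (p ^ t))) l *
          dq (cf (ZMod (p ^ t)) f) (fun j => (x j : ZMod (p ^ t))) j = 0
        rw [cf_dq, cf_dq, cf_dq, cf_dq]
        have h3 := hcast _ (hj j l)
        have h4 : jm ![F, f] x j l = dq F x j * dq f x l - dq F x l * dq f x j := rfl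
        rw [h4] at h3
        push_cast at h3
        exact h3
    have h3 := hTB1 s A (p ^ t) E hM
    have h4 : ((b1 s A).filter fun f => NP t p ![F, f]).card * (p ^ t) ^ md s * p ^ t ≤
        2 ^ md s * (2 * A + 1) ^ md s * (s ^ 2 * p ^ (2 * e + 1 + e * s) * (p ^ t) ^ md s) := by
      calc _ ≤ ((b1 s A).filter fun f => cf (ZMod (p ^ t)) f ∈ E).card * (p ^ t) ^ md s * p ^ t := by
            have := Finset.card_le_card h2
            gcongr
        _ ≤ 2 ^ md s * (2 * A + 1) ^ md s * E.card * p ^ t := Nat.mul_le_mul_right _ h3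
        _ = 2 ^ md s * (2 * A + 1) ^ md s * (E.card * p ^ t) := by ring
        _ ≤ _ := Nat.mul_le_mul_left _ h1
    have hpos : 0 < (p ^ t) ^ md s := pow_pos (pow_pos hp.pos t) _
    have h5 : ((b1 s A).filter fun f => NP t p ![F, f]).card * p ^ t ≤
        2 ^ md s * (2 * A + 1) ^ md s * (s ^ 2 * p ^ (2 * e + 1 + e * s)) := by
      refine Nat.le_of_mul_le_mul_right ?_ hpos
      calc _ = ((b1 s A).filter fun f => NP t p ![F, f]).card * (p ^ t) ^ md s * p ^ t := by ring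
        _ ≤ _ := h4
        _ = _ := by ring
    have h6 : (((b1 s A).filter fun f => NP t p ![F, f]).card : ℝ) * (p : ℝ) ^ t ≤
        2 ^ md s * (2 * (A : ℝ) + 1) ^ md s * (s ^ 2 * (p : ℝ) ^ (2 * e + 1 + e * s)) := by
      exact_mod_cast h5
    refine h6.trans ?_
    have h7 : (0 : ℝ) ≤ (p : ℝ) ^ e * (2 * (A : ℝ) + 1) ^ md s := by positivity
    nlinarith
  · have h1 : ((b1 s A).filter fun f => NP t p ![F, f]).card ≤ (2 * A + 1) ^ md s := by
      rw [← card_b1]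
      exact Finset.card_filter_le _ _
    have h2 : (((b1 s A).filter fun f => NP t p ![F, f]).card : ℝ) ≤
        (2 * (A : ℝ) + 1) ^ md s := by exact_mod_cast h1
    have h3 : (p : ℝ) ^ t ≤ (p : ℝ) ^ e := pow_le_pow_right₀ hp1 hte
    calc (((b1 s A).filter fun f => NP t p ![F, f]).card : ℝ) * (p : ℝ) ^ t
        ≤ (2 * (A : ℝ) + 1) ^ md s * (p : ℝ) ^ e :=
          mul_le_mul h2 h3 (by positivity) (by positivity)
      _ ≤ _ := by
          have h7 : (0 : ℝ) ≤ 2 ^ md s * (s ^ 2 * (p : ℝ) ^ (2 * e + 1 + e * s)) *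
            (2 * (A : ℝ) + 1) ^ md s := by positivity
          nlinarith

end Pool.Agent.H48.HFQ
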