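import Pool.Agent.H34.FQ.Targets

/-!
Row RRN of hfq_modules (MP_63b6b1_nt): the forms with a real zero which are robust in no chart.
-/

set_option autoImplicit false

open Finset Pool.Agent.H32.RQ Pool.Agent.H34.FQ

namespace Pool.Agent.H48.HFQ

open Classical in
theorem pf_RRN (hRR1 : T_RR1) (hRZF : T_RZF) (hRCN : T_RCN) : T_RRN := by
  intro n F hn hdet hz
  obtain ⟨k, N, κ, hκ, hN⟩ := hRZF n F hn hdet hz
  obtain ⟨C, hC, hR⟩ := hRR1 (n + 2) F (by omega)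
  refine ⟨k, N, fun ε hε => ?_⟩
  choose Cf hCf hu using fun i => hRCN n F (N i) κ hκ
  set S : ℝ := ∑ i, Cf i with hS
  have hS0 : 0 ≤ S := Finset.sum_nonneg fun i _ => by have := hCf i; linarith
  have hCS : ∀ i, Cf i ≤ S := fun i =>
    Finset.single_le_sum (f := Cf) (fun j _ => by have := hCf j; linarith) (Finset.mem_univ i)
  set ρ₀ : ℝ := min 1 (ε / C) with hρ₀
  have hρ₀0 : 0 < ρ₀ := lt_min one_pos (div_pos hε hC)
  obtain ⟨A₀, hA₀⟩ := hR ρ₀ hρ₀0 (min_le_left _ _)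
  refine ⟨S + 1, ρ₀ / (S + 1), by linarith, by positivity, A₀, fun A hA => ?_⟩
  have h1 := hA₀ A hA
  have h2 : C * ρ₀ * (2 * (A : ℝ) + 1) ^ md (n + 2) ≤ ε * (2 * (A : ℝ) + 1) ^ md (n + 2) := by
    refine mul_le_mul_of_nonneg_right ?_ (by positivity)
    calc C * ρ₀ ≤ C * (ε / C) := mul_le_mul_of_nonneg_left (min_le_right _ _) hC.le
      _ = ε := by field_simp
  refine le_trans (Nat.cast_le.mpr (Finset.card_le_card ?_)) (h1.trans h2)
  intro f hf
  rw [Finset.mem_filter] at hf ⊢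
  obtain ⟨hfb, ⟨x, hx0, hx⟩, hno⟩ := hf
  refine ⟨hfb, ⟨x, hx0, hx 0, hx 1⟩, ?_⟩
  rintro ⟨y, y', hy, hy1, hy', hy1', hFy, hFy', hfy, hfy'⟩
  obtain ⟨i, hi, hi'⟩ := hN y y' hy1 hy hy1' hy'
  obtain ⟨u, hub, a, ha, hg⟩ := hu i y hy hFy hi
  obtain ⟨u', hub', a', ha', hg'⟩ := hu i y' hy' hFy' hi'
  have hCi : 0 < Cf i := by have := hCf i; linarith
  have hA0 : (0 : ℝ) ≤ A := Nat.cast_nonneg _
  have hkey : ∀ b : ℝ, 1 ≤ Cf i * b → 0 ≤ b ∧ ρ₀ / (S + 1) * A ≤ b * (ρ₀ * A) := by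
    intro b hb
    have hb0 : 0 < b := by
      by_contra hcon
      push Not at hcon
      have := mul_nonpos_of_nonneg_of_nonpos hCi.le hcon
      linarith
    refine ⟨hb0.le, ?_⟩
    have h3 : ρ₀ / (S + 1) ≤ b * ρ₀ := by
      rw [div_le_iff₀ (by linarith)]
      have h4 : 1 ≤ b * (S + 1) := by
        calc (1 : ℝ) ≤ Cf i * b := hb
          _ = b * Cf i := mul_comm _ _
          _ ≤ b * (S + 1) := mul_le_mul_of_nonneg_left (by have := hCS i; linarith) hb0.le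
      calc ρ₀ = ρ₀ * 1 := (mul_one _).symm
        _ ≤ ρ₀ * (b * (S + 1)) := mul_le_mul_of_nonneg_left h4 hρ₀0.le
        _ = b * ρ₀ * (S + 1) := by ring
    calc ρ₀ / (S + 1) * A ≤ b * ρ₀ * A := mul_le_mul_of_nonneg_right h3 hA0
      _ = _ := by ring
  refine hno i ⟨u, u', fun j => (hub j).trans (by have := hCS i; linarith),
    fun j => (hub' j).trans (by have := hCS i; linarith), ?_, ?_⟩
  · rw [hg]
    exact (hkey a ha).2.trans (mul_le_mul_of_nonneg_left hfy (hkey a ha).1)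
  · rw [hg']
    have h3 := mul_le_mul_of_nonneg_left hfy' (hkey a' ha').1
    have h4 := (hkey a' ha').2
    linarith

end Pool.Agent.H48.HFQ
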