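import Pool.Agent.H34.FQ.Targets
import Pool.Agent.H32.RQ.RAT
import Pool.Agent.H48.HFQ.PN1

/-!
Row RT1 of hfq_modules (MP_63b6b1_nt): the final statement.
-/

set_option autoImplicit false

open Finset Filter Pool.Agent.H32.RQ Pool.Agent.H34.FQ

namespace Pool.Agent.H48.HFQ

open Classical in
theorem pf_RT1 (hSP1 : T_SP1) (hSZP : T_SZP) (hPO1 : T_PO1) (hHP1 : T_HP1) : T_RT1 := by
  intro s F hs hdet hz
  obtain ⟨n, rfl⟩ : ∃ n, s = n + 2 := ⟨s - 2, by omega⟩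
  have hn : 4 ≤ n := by omega
  obtain ⟨P, hP, hPS⟩ := hSP1 (n + 2) F (by omega) hdet
  have hcard : ∀ A : ℕ, ((b1 (n + 2) A).card : ℝ) = (2 * (A : ℝ) + 1) ^ md (n + 2) := by
    intro A
    rw [card_b1]
    push_cast
    ring
  have hpos : ∀ A : ℕ, (0 : ℝ) < (b1 (n + 2) A).card := by
    intro A
    rw [hcard]
    positivity
  have hN : ∀ ε : ℝ, 0 < ε → ∃ A₀ : ℕ, ∀ A : ℕ, A₀ ≤ A →
      (((b1 (n + 2) A).filter fun f => ¬ Sm ![F, f]).card : ℝ) ≤ ε * (b1 (n + 2) A).card := by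
    intro ε hε
    obtain ⟨A₀, h⟩ := hSZP (n + 2) P hP ε hε
    refine ⟨A₀, fun A hA => ?_⟩
    rw [hcard]
    refine le_trans (Nat.cast_le.mpr (Finset.card_le_card ?_)) (h A hA)
    intro c hc
    rw [Finset.mem_filter] at hc ⊢
    refine ⟨hc.1, ?_⟩
    by_contra h0
    exact hc.2 (hPS c h0)
  obtain ⟨δ, hδ, A₁, hA₁⟩ := hPO1 n F hn hdet hz
  have hZ : ∃ A₂ : ℕ, ∀ A : ℕ, A₂ ≤ A → δ / 2 * ((b1 (n + 2) A).card : ℝ) ≤
      (((b1 (n + 2) A).filter fun f => Sm ![F, f] ∧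
        ∃ x : Fin (n + 2) → ℤ, x ≠ 0 ∧ qf F x = 0 ∧ qf f x = 0).card : ℝ) := by
    obtain ⟨A₃, hA₃⟩ := hN (δ / 2) (by positivity)
    refine ⟨max A₁ A₃, fun A hA => ?_⟩
    have h1 := hA₁ A (le_trans (le_max_left _ _) hA)
    have h2 := hA₃ A (le_trans (le_max_right _ _) hA)
    rw [← hcard] at h1
    have h3 : (((b1 (n + 2) A).filter fun f => ∃ x : Fin (n + 2) → ℤ, x ≠ 0 ∧ qf F x = 0 ∧
        qf f x = 0).card : ℝ) ≤
        (((b1 (n + 2) A).filter fun f => Sm ![F, f] ∧ ∃ x : Fin (n + 2) → ℤ, x ≠ 0 ∧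
          qf F x = 0 ∧ qf f x = 0).card : ℝ) +
          (((b1 (n + 2) A).filter fun f => ¬ Sm ![F, f]).card : ℝ) := by
      have h4 : ((b1 (n + 2) A).filter fun f => ∃ x : Fin (n + 2) → ℤ, x ≠ 0 ∧ qf F x = 0 ∧
          qf f x = 0) ⊆
          ((b1 (n + 2) A).filter fun f => Sm ![F, f] ∧ ∃ x : Fin (n + 2) → ℤ, x ≠ 0 ∧
            qf F x = 0 ∧ qf f x = 0) ∪
            (b1 (n + 2) A).filter fun f => ¬ Sm ![F, f] := by
        intro c hc
        rw [Finset.mem_filter] at hc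
        by_cases hs : Sm ![F, c]
        · exact Finset.mem_union_left _ (Finset.mem_filter.mpr ⟨hc.1, hs, hc.2⟩)
        · exact Finset.mem_union_right _ (Finset.mem_filter.mpr ⟨hc.1, hs⟩)
      have h5 := (Finset.card_le_card h4).trans (Finset.card_union_le _ _)
      exact_mod_cast h5
    linarith
  refine ⟨?_, ⟨δ / 2, by positivity, hZ⟩, ?_, ?_⟩
  · rw [Metric.tendsto_atTop]
    intro ε hε
    obtain ⟨A₀, h⟩ := hN (ε / 2) (by positivity)
    refine ⟨A₀, fun A hA => ?_⟩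
    rw [Real.dist_eq, sub_zero, abs_of_nonneg (by positivity), div_lt_iff₀ (hpos A)]
    have h0 := h A hA
    have h1 := hpos A
    have h2 : 0 < ε / 2 * ((b1 (n + 2) A).card : ℝ) := by positivity
    have h3 : ε / 2 * ((b1 (n + 2) A).card : ℝ) + ε / 2 * ((b1 (n + 2) A).card : ℝ) =
      ε * ((b1 (n + 2) A).card : ℝ) := by ring
    linarith
  · obtain ⟨A₂, hA₂⟩ := hZ
    rw [Metric.tendsto_atTop]
    intro ε hε
    obtain ⟨K, A₃, hA₃⟩ := hHP1 n F hn hdet hz (ε * (δ / 2) / 2) (by positivity)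
    refine ⟨max A₂ A₃, fun A hA => ?_⟩
    have h1 := hA₂ A (le_trans (le_max_left _ _) hA)
    have h2 := hA₃ A (le_trans (le_max_right _ _) hA)
    rw [← hcard] at h2
    have hb := hpos A
    obtain ⟨X, hX⟩ : ∃ X : ℕ, X = ((b1 (n + 2) A).filter fun f => Sm ![F, f] ∧ LS ![F, f] ∧
        ∃ x : Fin (n + 2) → ℤ, x ≠ 0 ∧ qf F x = 0 ∧ qf f x = 0).card := ⟨_, rfl⟩
    obtain ⟨Y, hY⟩ : ∃ Y : ℕ, Y = ((b1 (n + 2) A).filter fun f => Sm ![F, f] ∧
        LS ![F, f]).card := ⟨_, rfl⟩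
    rw [← hX, ← hY]
    have hXZ : (((b1 (n + 2) A).filter fun f => Sm ![F, f] ∧
        ∃ x : Fin (n + 2) → ℤ, x ≠ 0 ∧ qf F x = 0 ∧ qf f x = 0).card : ℝ) ≤ X := by
      rw [hX]
      refine Nat.cast_le.mpr (Finset.card_le_card ?_)
      intro c hc
      rw [Finset.mem_filter] at hc ⊢
      refine ⟨hc.1, hc.2.1, Pool.Agent.H32.RQ.RatZ.ls_of_zero _ ?_, hc.2.2⟩
      obtain ⟨x, hx, h0, h1⟩ := hc.2.2
      refine ⟨x, hx, fun i => ?_⟩
      fin_cases i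
      · exact h0
      · exact h1
    have hXY : (X : ℝ) ≤ Y := by
      rw [hX, hY]
      refine Nat.cast_le.mpr (Finset.card_le_card ?_)
      intro c hc
      rw [Finset.mem_filter] at hc ⊢
      exact ⟨hc.1, hc.2.1, hc.2.2.1⟩
    have hYX : (Y : ℝ) ≤ X +
        (((b1 (n + 2) A).filter fun f => LS ![F, f] ∧ ¬ SZ1 F K A f).card : ℝ) := by
      have h4 : ((b1 (n + 2) A).filter fun f => Sm ![F, f] ∧ LS ![F, f]) ⊆
          ((b1 (n + 2) A).filter fun f => Sm ![F, f] ∧ LS ![F, f] ∧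
            ∃ x : Fin (n + 2) → ℤ, x ≠ 0 ∧ qf F x = 0 ∧ qf f x = 0) ∪
            (b1 (n + 2) A).filter fun f => LS ![F, f] ∧ ¬ SZ1 F K A f := by
        intro c hc
        rw [Finset.mem_filter] at hc
        by_cases hz : SZ1 F K A c
        · obtain ⟨x, hx, hx0, hx1, _⟩ := hz
          exact Finset.mem_union_left _ (Finset.mem_filter.mpr
            ⟨hc.1, hc.2.1, hc.2.2, x, hx, hx0, hx1⟩)
        · exact Finset.mem_union_right _ (Finset.mem_filter.mpr ⟨hc.1, hc.2.2, hz⟩)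
      have h5 := (Finset.card_le_card h4).trans (Finset.card_union_le _ _)
      rw [← hX, ← hY] at h5
      exact_mod_cast h5
    have hX0 : δ / 2 * ((b1 (n + 2) A).card : ℝ) ≤ X := h1.trans hXZ
    have hY0 : (0 : ℝ) < Y := lt_of_lt_of_le (by positivity) (hX0.trans hXY)
    have e : (X : ℝ) / Y - 1 = -((Y - X) / Y) := by
      field_simp
      ring
    rw [Real.dist_eq, e, abs_neg, abs_of_nonneg (div_nonneg (by linarith) hY0.le),
      div_lt_iff₀ hY0]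
    have h6 : ε * (δ / 2) / 2 * ((b1 (n + 2) A).card : ℝ) ≤ ε / 2 * Y := by
      have h7 : δ / 2 * ((b1 (n + 2) A).card : ℝ) ≤ Y := hX0.trans hXY
      calc ε * (δ / 2) / 2 * ((b1 (n + 2) A).card : ℝ) =
          ε / 2 * (δ / 2 * ((b1 (n + 2) A).card : ℝ)) := by ring
        _ ≤ ε / 2 * Y := mul_le_mul_of_nonneg_left h7 (by positivity)
    have h8 : 0 < ε / 2 * (Y : ℝ) := by positivity
    linarith
  · intro ε hε
    obtain ⟨K, A₃, hA₃⟩ := hHP1 n F hn hdet hz ε hε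
    refine ⟨K, A₃, fun A hA => ?_⟩
    rw [hcard]
    exact hA₃ A hA

end Pool.Agent.H48.HFQ
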